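import Pool.Agent.H31.ND.Defs

/-!
# MP_5ee2d0_ag: pencils of divisors, and divisors of Kodaira dimension at least two

`X` is a projective manifold with `H^1(X, O_X) = 0`.
-/

namespace Pool.Agent.H21.YN

open Pool.Agent.H31.ND

variable {r : ℕ}

/-- The rational functions whose divisors have support in `S`. Any two of them are algebraically dependent,
since otherwise a divisor with support in `S` would have Kodaira dimension at least two. If they are not all
constant let `B` be the set of the points of the smooth projective curve whose function field is the
algebraic closure of `ℂ(f)` in the function field of `X`, for one such function `f` which is not constant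
(it contains all the others). It is the projective line, because `H^1(X, O_X) = 0`. Let `mem t` be the
fibre over `t` of the rational map from `X` to `B`, that is the divisor of zeros of `g - t`, `g` the
coordinate of `B`. If they are all constant, `B` is empty. -/
structure Pencil (X : Var r) (S : Set X.Pr) where
  B : Type
  mem : B → X.Pr →₀ ℕ
  /-- the class of the members -/
  Φ : X.P
  line_mem : ∀ t, X.line (mem t) = Φ
  ne_zero : ∀ t, mem t ≠ 0
  /-- the general fibres are irreducible, the algebraic closure was taken -/
  red : {t | ¬ ∃ F k, mem t = Finsupp.single F k}.Finite
  /-- The rational function with the divisor `D - D'` is the pull back of a rational function on `B`. -/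
  fn : ∀ D D' : X.Pr →₀ ℕ, (∀ F ∈ D.support, F ∈ S) → (∀ F ∈ D'.support, F ∈ S) →
    X.line D = X.line D' → ∃ c c' : B →₀ ℕ,
      D + c.sum (fun t k => k • mem t) = D' + c'.sum (fun t k => k • mem t)

/-- the divisor `D` has Kodaira dimension at least two: the sections of a multiple contain three
algebraically independent ones -/
def Kod (X : Var r) (D : X.Pr →₀ ℕ) : Prop :=
  ∃ k : ℕ, 0 < k ∧ ∀ m : ℕ, (m + 1) * (m + 2) ≤ 2 * X.h 0 ((m * k) • X.line D)

end Pool.Agent.H21.YN
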