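import Pool.Agent.H31.ND.Non
import Pool.Agent.H21.YN.Pencil

/-!
# The cone generated by the prime divisors orthogonal to the square of a nef class

`X` is a projective manifold with `H^1(X, O_X) = 0`, and `S` is a set of prime divisors on `X`. Suppose that
all effective divisors with support in `S` have Kodaira dimension at most one. Then the convex cone
generated by their classes is finitely generated.
-/

namespace Pool.Agent.H21.YN

open Pool.Agent.H31.ND
open scoped BigOperators Topology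

/-! ## Effective classes -/

/-- `x` is the class of an effective divisor with real coefficients and with components in `S` -/
def EffIn {r : ℕ} {Pr : Type} (Y : Num r Pr) (S : Set Pr) (x : Vec r) : Prop :=
  ∃ (k : ℕ) (F : Fin k → Pr) (u : Fin k → ℝ), (∀ i, 0 ≤ u i) ∧ (∀ i, F i ∈ S) ∧
    x = ∑ i, u i • Y.cl (F i)

section

variable {r : ℕ} {Pr : Type} {Y : Num r Pr} {S : Set Pr}

theorem EffIn.eff {x : Vec r} (h : EffIn Y S x) : Y.Eff x := by
  obtain ⟨k, F, u, hu, _, e⟩ := h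
  exact ⟨k, F, u, hu, e⟩

/-- If a linear form is not negative on the prime divisors and not positive on an effective class then
it is zero on all its components. -/
theorem eff_in (φ : Vec r →ₗ[ℝ] ℝ) (hφ : ∀ F, 0 ≤ φ (Y.cl F)) {x : Vec r} (hx : Y.Eff x)
    (h0 : φ x ≤ 0) : EffIn Y {F | φ (Y.cl F) = 0} x := by
  classical
  obtain ⟨k, F, u, hu, rfl⟩ := hx
  have h1 : ∀ i ∈ Finset.univ, (0 : ℝ) ≤ u i * φ (Y.cl (F i)) := fun i _ => mul_nonneg (hu i) (hφ _)
  have h2 : ∀ i, u i * φ (Y.cl (F i)) = 0 := by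
    have h3 : ∑ i, u i * φ (Y.cl (F i)) = 0 := by
      refine le_antisymm ?_ (Finset.sum_nonneg h1)
      simpa [map_sum, map_smul, smul_eq_mul] using h0
    exact fun i => (Finset.sum_eq_zero_iff_of_nonneg h1).1 h3 i (Finset.mem_univ i)
  -- the components with positive coefficients
  let s := Finset.univ.filter fun i => u i ≠ 0
  let e := s.equivFin.symm
  refine ⟨s.card, fun j => F (e j), fun j => u (e j), fun j => hu _, fun j => ?_, ?_⟩
  · have h3 : u (e j) ≠ 0 := (Finset.mem_filter.1 (e j).2).2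
    exact (mul_eq_zero.1 (h2 (e j))).resolve_left h3
  · rw [e.sum_comp (fun i : s => u i • Y.cl (F i)), Finset.sum_coe_sort s (fun i => u i • Y.cl (F i)),
      Finset.sum_filter_of_ne]
    intro i _ hi h3
    exact hi (by rw [h3, zero_smul])

/-- The cone generated by finitely many prime divisors. -/
theorem effIn_iff (s : Finset Pr) (x : Vec r)
    (hs : ∀ F ∈ S, ∃ F₀ ∈ s, ∃ c : ℝ, 0 < c ∧ Y.cl F = c • Y.cl F₀) (h : EffIn Y S x) :
    ∃ u : Pr → ℝ, (∀ F, 0 ≤ u F) ∧ x = ∑ F ∈ s, u F • Y.cl F := by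
  classical
  obtain ⟨k, F, v, hv, hF, rfl⟩ := h
  have h1 : ∀ i, ∃ F₀ ∈ s, ∃ c : ℝ, 0 < c ∧ Y.cl (F i) = c • Y.cl F₀ := fun i => hs _ (hF i)
  choose F₀ hF₀ c hc hcl using h1
  refine ⟨fun G => ∑ i, if F₀ i = G then v i * c i else 0, fun G => Finset.sum_nonneg fun i _ => ?_, ?_⟩
  · split_ifs
    · exact mul_nonneg (hv i) (hc i).le
    · exact le_rfl
  · simp only [Finset.sum_smul]
    rw [Finset.sum_comm]
    refine Finset.sum_congr rfl fun i _ => ?_
    rw [Finset.sum_eq_single (F₀ i)]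
    · rw [if_pos rfl, hcl, smul_smul]
    · intro G _ hne
      rw [if_neg (Ne.symm hne), zero_smul]
    · intro hn
      exact absurd (hF₀ i) hn

/-- The cone generated by finitely many prime divisors is closed. -/
theorem closed_of_finite (hf : Y.Form) (hpos : ∀ F, 0 < Y.f Y.A (Y.cl F)) (s : Finset Pr)
    (hsS : ∀ F ∈ s, F ∈ S) (hs : ∀ F ∈ S, ∃ F₀ ∈ s, ∃ c : ℝ, 0 < c ∧ Y.cl F = c • Y.cl F₀)
    (x Q : Vec r)
    (hM : ∀ B : ℕ, ∃ (M : ℕ) (y : Vec r), B < M ∧ EffIn Y S y ∧ (M : ℝ) • x = y + Q) :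
    EffIn Y S x := by
  classical
  choose M y hBM hy e using hM
  have hMpos : ∀ B, (0 : ℝ) < M B := fun B => by
    have := hBM B
    exact_mod_cast Nat.lt_of_le_of_lt (Nat.zero_le _) this
  -- the coefficients, divided by `M`
  have h1 : ∀ B, ∃ u : Pr → ℝ, (∀ F, 0 ≤ u F) ∧ y B = ∑ F ∈ s, u F • Y.cl F := fun B =>
    effIn_iff s _ hs (hy B)
  choose u hu hyu using h1
  let C : ℝ := Y.f Y.A x + |Y.f Y.A Q|
  let K : Set (s → ℝ) := Set.pi Set.univ fun F => Set.Icc 0 (C / Y.f Y.A (Y.cl F.1))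
  have hK : IsCompact K := isCompact_univ_pi fun F => isCompact_Icc
  let Ψ : (s → ℝ) → Vec r := fun v => ∑ F : s, v F • Y.cl F.1
  have hΨ : Continuous Ψ := by
    refine continuous_finsetSum _ fun F _ => ?_
    exact (continuous_apply F).smul continuous_const
  have hcl : IsClosed (Ψ '' K) := (hK.image hΨ).isClosed
  have hmem : ∀ B, x - (M B : ℝ)⁻¹ • Q ∈ Ψ '' K := by
    intro B
    refine ⟨fun F => (M B : ℝ)⁻¹ * u B F.1, ?_, ?_⟩
    · rw [Set.mem_univ_pi]
      intro F
      refine ⟨mul_nonneg (inv_nonneg.2 (hMpos B).le) (hu B _), ?_⟩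
      rw [le_div_iff₀ (hpos _)]
      have h2 : Y.f Y.A (y B) = ∑ F ∈ s, u B F * Y.f Y.A (Y.cl F) := by
        rw [hyu, hf.sum']
        exact Finset.sum_congr rfl fun F _ => by rw [hf.mul']
      have h3 : u B F.1 * Y.f Y.A (Y.cl F.1) ≤ Y.f Y.A (y B) := by
        rw [h2]
        exact Finset.single_le_sum (f := fun F => u B F * Y.f Y.A (Y.cl F))
          (fun F _ => mul_nonneg (hu B F) (hpos F).le) F.2
      have h4 : Y.f Y.A (y B) = M B * Y.f Y.A x - Y.f Y.A Q := by
        have := congrArg (fun z => Y.f Y.A z) (e B)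
        simp only [hf.mul', hf.add'] at this
        linarith
      rw [h4] at h3
      have h5 : -Y.f Y.A Q ≤ |Y.f Y.A Q| := neg_le_abs _
      have h6 : |Y.f Y.A Q| ≤ M B * |Y.f Y.A Q| := by
        have : (1 : ℝ) ≤ M B := by
          have := hBM B
          exact_mod_cast (show 1 ≤ M B by omega)
        exact le_mul_of_one_le_left (abs_nonneg _) this
      have h7 : u B F.1 * Y.f Y.A (Y.cl F.1) ≤ M B * C := by
        show _ ≤ M B * (Y.f Y.A x + |Y.f Y.A Q|)
        rw [mul_add]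
        linarith
      have h8 := mul_le_mul_of_nonneg_left h7 (inv_nonneg.2 (hMpos B).le)
      rw [← mul_assoc, ← mul_assoc, inv_mul_cancel₀ (hMpos B).ne', one_mul] at h8
      exact h8
    · show ∑ F : s, ((M B : ℝ)⁻¹ * u B F.1) • Y.cl F.1 = _
      have h2 : ∑ F : s, ((M B : ℝ)⁻¹ * u B F.1) • Y.cl F.1 = (M B : ℝ)⁻¹ • y B := by
        rw [hyu, Finset.smul_sum, ← Finset.sum_coe_sort s]
        exact Finset.sum_congr rfl fun F _ => by rw [mul_smul]
      rw [h2]
      have h3 : y B = (M B : ℝ) • x - Q := by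
        rw [e B]
        abel
      rw [h3, smul_sub, smul_smul, inv_mul_cancel₀ (hMpos B).ne', one_smul]
  have hlim : Filter.Tendsto (fun B : ℕ => x - (M B : ℝ)⁻¹ • Q) Filter.atTop (𝓝 x) := by
    have h2 : Filter.Tendsto (fun B : ℕ => (M B : ℝ)⁻¹) Filter.atTop (𝓝 0) := by
      refine tendsto_inv_atTop_zero.comp (tendsto_natCast_atTop_atTop.comp ?_)
      exact Filter.tendsto_atTop_mono (fun B => (hBM B).le) Filter.tendsto_id
    have h3 := (h2.smul_const Q).const_sub x
    rwa [zero_smul, sub_zero] at h3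
  obtain ⟨v, hv, hvx⟩ := hcl.mem_of_tendsto hlim (Filter.Eventually.of_forall hmem)
  refine ⟨s.card, fun j => (s.equivFin.symm j).1, fun j => v (s.equivFin.symm j), fun j => ?_,
    fun j => hsS _ (s.equivFin.symm j).2, ?_⟩
  · exact ((Set.mem_univ_pi.1 hv) _).1
  · rw [← hvx]
    exact (s.equivFin.symm.sum_comp (fun F : s => v F • Y.cl F.1)).symm

end

/-! ## The pencil -/

namespace Pencil

variable {r : ℕ} {X : Var r} {S : Set X.Pr} (P : Pencil X S)

/-- horizontal prime divisors -/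
def Hor (F : X.Pr) : Prop := ∀ t, P.mem t F = 0

theorem fn_hor {D D' : X.Pr →₀ ℕ} (hD : ∀ F ∈ D.support, F ∈ S) (hD' : ∀ F ∈ D'.support, F ∈ S)
    (h : X.line D = X.line D') {F : X.Pr} (hF : P.Hor F) : D F = D' F := by
  classical
  obtain ⟨c, c', e⟩ := P.fn D D' hD hD' h
  have h1 : ∀ c : P.B →₀ ℕ, (c.sum fun t k => k • P.mem t) F = 0 := by
    intro c
    rw [Finsupp.sum, Finsupp.finsetSum_apply]
    refine Finset.sum_eq_zero fun t _ => ?_
    rw [Finsupp.smul_apply, hF t, smul_zero]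
  have h2 := congrArg (fun E : X.Pr →₀ ℕ => E F) e
  simp only [Finsupp.add_apply, h1, add_zero] at h2
  exact h2

/-- The classes of the horizontal prime divisors in `S` are linearly independent. -/
theorem linearIndependent (h : X.Divisors) :
    LinearIndependent ℤ fun F : {F // F ∈ S ∧ P.Hor F} => X.c (X.O F.1) := by
  classical
  rw [linearIndependent_iff']
  intro s g hg F hF
  -- positive and negative part
  let D : X.Pr →₀ ℕ := ∑ F ∈ s, Finsupp.single F.1 (g F).toNat
  let D' : X.Pr →₀ ℕ := ∑ F ∈ s, Finsupp.single F.1 (-g F).toNat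
  have happ : ∀ (f : {F // F ∈ S ∧ P.Hor F} → ℕ), (∑ F ∈ s, Finsupp.single F.1 (f F)) F.1 = f F := by
    intro f
    rw [Finsupp.finsetSum_apply, Finset.sum_eq_single F]
    · rw [Finsupp.single_eq_same]
    · intro F' _ hne
      rw [Finsupp.single_eq_of_ne]
      intro e
      exact hne (Subtype.ext e.symm)
    · intro hn
      exact absurd hF hn
  have hsupp : ∀ (f : {F // F ∈ S ∧ P.Hor F} → ℕ),
      ∀ G ∈ (∑ F ∈ s, Finsupp.single F.1 (f F)).support, G ∈ S := by
    intro f G hG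
    have h1 := Finsupp.support_finsetSum hG
    rw [Finset.mem_biUnion] at h1
    obtain ⟨F', _, h2⟩ := h1
    have h3 := Finsupp.support_single_subset h2
    rw [Finset.mem_singleton] at h3
    rw [h3]
    exact F'.2.1
  have hc : ∀ (f : {F // F ∈ S ∧ P.Hor F} → ℕ),
      X.c (X.line (∑ F ∈ s, Finsupp.single F.1 (f F))) = ∑ F ∈ s, f F • X.c (X.O F.1) := by
    intro f
    rw [Var.line_sum, h.c_sum]
    exact Finset.sum_congr rfl fun F _ => by rw [Var.line_single, h.c_nsmul]
  have h1 : X.c (X.line D - X.line D') = 0 := by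
    rw [h.c_sub, hc, hc, ← Finset.sum_sub_distrib, ← hg]
    refine Finset.sum_congr rfl fun F _ => ?_
    rw [← natCast_zsmul, ← natCast_zsmul, ← sub_smul, Int.toNat_sub_toNat_neg]
  obtain ⟨k, hk, h2⟩ := h.tors _ h1
  rw [smul_sub, sub_eq_zero, ← Var.line_nsmul, ← Var.line_nsmul] at h2
  have hs : ∀ E : X.Pr →₀ ℕ, (∀ G ∈ E.support, G ∈ S) → ∀ G ∈ (k • E).support, G ∈ S :=
    fun E hE G hG => hE G (Finsupp.support_smul hG)
  have h3 := P.fn_hor (hs D (hsupp _)) (hs D' (hsupp _)) h2 F.2.2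
  rw [Finsupp.smul_apply, Finsupp.smul_apply, happ, happ, smul_eq_mul, smul_eq_mul] at h3
  have h4 := Nat.eq_of_mul_eq_mul_left hk h3
  have h5 := Int.toNat_sub_toNat_neg (g F)
  rw [h4] at h5
  omega

theorem hor_finite (h : X.Divisors) : {F | F ∈ S ∧ P.Hor F}.Finite := by
  exact Set.finite_coe_iff.1 (P.linearIndependent h).finite_of_isNoetherian

include P in
/-- Up to positive multiples there are only finitely many classes of prime divisors in `S`. -/
theorem finite (h : X.Divisors) : ∃ S₀ : Set X.Pr, S₀.Finite ∧ S₀ ⊆ S ∧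
    ∀ F ∈ S, ∃ F₀ ∈ S₀, ∃ c : ℝ, 0 < c ∧ X.num.cl F = c • X.num.cl F₀ := by
  classical
  -- irreducible members
  have hirr : ∀ t F k, P.mem t = Finsupp.single F k → (0 < k ∧ (k : ℝ) • X.num.cl F = X.rl P.Φ) := by
    intro t F k e
    have hk : 0 < k := by
      rcases Nat.eq_zero_or_pos k with rfl | hk
      · rw [Finsupp.single_zero] at e
        exact absurd e (P.ne_zero t)
      · exact hk
    refine ⟨hk, ?_⟩
    rw [h.cl_eq, ← h.rl_nsmul, ← Var.line_single, ← e, P.line_mem]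
  let S₁ : Set X.Pr := {F | F ∈ S ∧ P.Hor F} ∪
    {F | F ∈ S ∧ ∃ t ∈ {t | ¬ ∃ F k, P.mem t = Finsupp.single F k}, F ∈ (P.mem t).support}
  have hS₁ : S₁.Finite := by
    refine (P.hor_finite h).union ?_
    refine (P.red.biUnion fun t _ => (P.mem t).support.finite_toSet).subset ?_
    rintro F ⟨_, t, ht, hF⟩
    exact Set.mem_biUnion ht hF
  have hrest : ∀ F ∈ S, F ∉ S₁ → ∃ t k, P.mem t = Finsupp.single F k := by
    intro F hF hn
    have h1 : ¬ P.Hor F := fun h1 => hn (Or.inl ⟨hF, h1⟩)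
    unfold Hor at h1
    push Not at h1
    obtain ⟨t, ht⟩ := h1
    by_cases h2 : ∃ F k, P.mem t = Finsupp.single F k
    · obtain ⟨F', k, e⟩ := h2
      refine ⟨t, k, ?_⟩
      rw [e] at ht ⊢
      by_cases h3 : F = F'
      · rw [h3]
      · rw [Finsupp.single_eq_of_ne h3] at ht
        exact absurd rfl ht
    · exact absurd (Or.inr ⟨hF, t, h2, Finsupp.mem_support_iff.2 ht⟩) hn
  by_cases hex : ∃ F ∈ S, F ∉ S₁
  · obtain ⟨F₁, hF₁, hn₁⟩ := hex
    obtain ⟨t₁, k₁, e₁⟩ := hrest F₁ hF₁ hn₁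
    refine ⟨insert F₁ S₁, hS₁.insert _, ?_, ?_⟩
    · intro F hF
      rcases hF with rfl | h1 | h1
      · exact hF₁
      · exact h1.1
      · exact h1.1
    · intro F hF
      by_cases hn : F ∈ S₁
      · exact ⟨F, Or.inr hn, 1, one_pos, (one_smul _ _).symm⟩
      · obtain ⟨t, k, e⟩ := hrest F hF hn
        obtain ⟨hk, h1⟩ := hirr t F k e
        obtain ⟨hk₁, h2⟩ := hirr t₁ F₁ k₁ e₁
        have hk' : (0 : ℝ) < k := by exact_mod_cast hk
        have hk₁' : (0 : ℝ) < k₁ := by exact_mod_cast hk₁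
        refine ⟨F₁, Or.inl rfl, k₁ / k, by positivity, ?_⟩
        rw [div_eq_inv_mul, mul_smul, h2, ← h1, smul_smul, inv_mul_cancel₀ hk'.ne', one_smul]
  · push Not at hex
    refine ⟨S₁, hS₁, ?_, fun F hF => ⟨F, hex F hF, 1, one_pos, (one_smul _ _).symm⟩⟩
    intro F hF
    rcases hF with h1 | h1
    · exact h1.1
    · exact h1.1

include P in
/-- **Theorem.** The convex cone generated by the classes of the prime divisors in `S` is closed. -/
theorem closed (h : X.Divisors) (x Q : Vec r)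
    (hM : ∀ B : ℕ, ∃ (M : ℕ) (y : Vec r), B < M ∧ EffIn X.num S y ∧ (M : ℝ) • x = y + Q) :
    EffIn X.num S x := by
  obtain ⟨S₀, hfin, hsub, hS₀⟩ := P.finite h
  exact closed_of_finite h.form h.pos hfin.toFinset
    (fun F hF => hsub ((Set.Finite.mem_toFinset hfin).1 hF))
    (fun F hF => by
      obtain ⟨F₀, h1, h2⟩ := hS₀ F hF
      exact ⟨F₀, (Set.Finite.mem_toFinset hfin).2 h1, h2⟩) x Q hM

end Pencil

end Pool.Agent.H21.YN
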